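import Pool.Agent.Lib.MP_0e8720_lc.Hedge

set_option autoImplicit false

namespace Pool.Agent.Results.MP_0e8720_lc.LnPlusConst

open MeasureTheory Pool.Agent.Lib.MP_0e8720_lc

theorem result : ∃ C : ℝ, ∀ n : ℕ, 1 ≤ n →
    ∃ (Ω : Type) (_ : MeasurableSpace Ω) (μ : Measure Ω) (_ : IsProbabilityMeasure μ)
      (A : Ω → List (Job n) → Fin n), (∀ l, Measurable fun ω => A ω l) ∧
      ∀ σ : List (Job n), (∀ t ∈ σ, 0 < t.1 ∧ t.2.Nonempty) →
        (∀ ω, Feas σ (run (A ω) σ)) ∧ Integrable (fun ω => cost σ (run (A ω) σ)) μ ∧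
        ∃ opt : ℝ, IsLeast {c | ∃ f, Feas σ f ∧ cost σ f = c} opt ∧
          ∫ ω, cost σ (run (A ω) σ) ∂μ ≤ (Real.log n + C) * opt :=
  Hg.hedge

end Pool.Agent.Results.MP_0e8720_lc.LnPlusConst
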